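import Pool.Agent.Helper35.PM.Defs2

set_option autoImplicit false

/-!
# Project PM, module PM-3: a cube from a projective space minor
-/

namespace Pool.Agent.Helper35.PM

open Finset
open scoped Classical

/-- PM-3 for a graph with a basis change (the conclusion of PM-2 is taken as a hypothesis). -/
theorem cube_of_hasPG_aux {V : Type} [Fintype V] (G : SimpleGraph V) (n : ℕ) (hn : 2 ≤ n)
    (hbc : ∀ (R : Finset V) (_ : ∀ x ∈ R, ∀ y ∈ R, ¬ G.Adj x y) (T : Finset V)
      (_ : LinearIndepOn (ZMod 2) (vec G R) (T : Set V)),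
      ∃ (G' : SimpleGraph V) (σ : Equiv.Perm V), Relation.ReflTransGen PivotStep G G' ∧
        (∀ x ∈ R, ∀ y ∈ R, ¬ G'.Adj x y) ∧ (∀ x ∈ T, σ.symm x ∈ R) ∧
        LinearIndepOn (ZMod 2) (fun r => vec G R (σ r)) (R : Set V) ∧
        ∀ x, vec G R (σ x) = ∑ r ∈ R, vec G' R x r • vec G R (σ r))
    (h : HasPG G (2 ^ n)) :
    ∃ G' : SimpleGraph V, Relation.ReflTransGen PivotStep G G' ∧
      ∃ (c : Fin n → V) (ρ : Finset (Fin n) → V), Cube G' c ρ := by
  obtain ⟨R, hR, D, f, Φ, hD, hΦ, hspan⟩ := h
  -- a maximal independent part of `D`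
  obtain ⟨D', hD'D, -, hD'span, hD'ind⟩ := exists_linearIndepOn_extension
    (linearIndepOn_empty (ZMod 2) (vec G R)) (Set.empty_subset D)
  have hspanD : Submodule.span (ZMod 2) (vec G R '' D) ≤
      Submodule.span (ZMod 2) (vec G R '' D') := Submodule.span_le.2 hD'span
  have hsing : ∀ i : Fin (2 ^ n), Φ (vec G R (f {i})) = Pi.single i 1 := by
    intro i
    rw [hΦ {i} (singleton_nonempty i)]
    funext j
    by_cases hj : j = i
    · subst hj
      simp
    · rw [Pi.single_eq_of_ne hj]
      simp [hj]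
  have hfinj : Function.Injective (fun i : Fin (2 ^ n) => f {i}) := by
    intro i j hij
    have h1 := hsing i
    have h2 : f {i} = f {j} := hij
    rw [h2, hsing j] at h1
    by_contra hne
    have h3 := congrFun h1 i
    rw [Pi.single_eq_same, Pi.single_eq_of_ne hne] at h3
    exact zero_ne_one h3
  have hfD : ∀ i : Fin (2 ^ n), f {i} ∉ D' := by
    intro i hi
    have h1 := hD _ (hD'D hi)
    rw [hsing i] at h1
    have h3 := congrFun h1 i
    rw [Pi.single_eq_same] at h3
    exact one_ne_zero h3
  set F : Set V := Set.range (fun i : Fin (2 ^ n) => f {i}) with hF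
  have hFind : LinearIndependent (ZMod 2) (fun i : Fin (2 ^ n) => vec G R (f {i})) := by
    rw [Fintype.linearIndependent_iff]
    intro g hg i
    have h1 := congrArg Φ hg
    rw [map_sum, map_zero] at h1
    have h2 := congrFun h1 i
    simp only [map_smul, hsing, Finset.sum_apply, Pi.smul_apply, Pi.zero_apply, smul_eq_mul] at h2
    rw [Finset.sum_eq_single i] at h2
    · simpa using h2
    · intro j _ hj
      rw [Pi.single_eq_of_ne hj.symm, mul_zero]
    · simp
  have hFon : LinearIndepOn (ZMod 2) (vec G R) F := by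
    rw [hF]
    exact (linearIndepOn_range_iff hfinj _).2 hFind
  have hdisj : Disjoint (Submodule.span (ZMod 2) (vec G R '' D'))
      (Submodule.span (ZMod 2) (vec G R '' F)) := by
    rw [Submodule.disjoint_def]
    intro x hx1 hx2
    have hx3 : Φ x = 0 := by
      have : Submodule.span (ZMod 2) (vec G R '' D') ≤ LinearMap.ker Φ := by
        rw [Submodule.span_le]
        rintro _ ⟨d, hd, rfl⟩
        exact hD d (hD'D hd)
      exact this hx1
    have him : vec G R '' F = Set.range (fun i : Fin (2 ^ n) => vec G R (f {i})) := by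
      rw [hF, ← Set.range_comp]
      rfl
    rw [him, Submodule.mem_span_range_iff_exists_fun] at hx2
    obtain ⟨g, rfl⟩ := hx2
    have hg : ∀ i, g i = 0 := by
      intro i
      rw [map_sum] at hx3
      have h2 := congrFun hx3 i
      simp only [map_smul, hsing, Finset.sum_apply, Pi.smul_apply, Pi.zero_apply, smul_eq_mul] at h2
      rw [Finset.sum_eq_single i] at h2
      · simpa using h2
      · intro j _ hj
        rw [Pi.single_eq_of_ne hj.symm, mul_zero]
      · simp
    simp [hg]
  have hTind : LinearIndepOn (ZMod 2) (vec G R) (((D' ∪ F).toFinset : Finset V) : Set V) := by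
    rw [Set.coe_toFinset]
    exact hD'ind.union hFon hdisj
  obtain ⟨G', σ, hstep, hR', hTR, hind, hexp⟩ := hbc R hR _ hTind
  refine ⟨G', hstep, ?_⟩
  have hTR' : ∀ x, x ∈ D' ∨ x ∈ F → σ.symm x ∈ R := by
    intro x hx
    apply hTR
    rw [Set.mem_toFinset]
    exact hx
  -- the coefficients
  have hcoef : ∀ S : Finset (Fin (2 ^ n)), S.Nonempty → ∀ i : Fin (2 ^ n),
      vec G' R (σ.symm (f S)) (σ.symm (f {i})) = if i ∈ S then 1 else 0 := by
    intro S hS i
    have hw := hspanD (hspan S hS)
    rw [Finsupp.mem_span_image_iff_linearCombination] at hw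
    obtain ⟨l, hl, hlw⟩ := hw
    rw [Finsupp.linearCombination_apply, Finsupp.sum_fintype _ _ (by simp)] at hlw
    have hl0 : ∀ x, x ∉ D' → l x = 0 := by
      intro x hx
      by_contra hne
      exact hx (hl (Finsupp.mem_support_iff.2 hne))
    set hh : V → ZMod 2 := fun x => l x + if x ∈ S.image (fun i => f {i}) then 1 else 0 with hhh
    have h1 : ∑ x : V, hh x • vec G R x = vec G R (f S) := by
      simp only [hhh, add_smul, sum_add_distrib, ite_smul, one_smul, zero_smul]
      rw [hlw, ← Finset.sum_filter, Finset.filter_mem_eq_inter, Finset.univ_inter,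
        Finset.sum_image (fun a _ b _ hab => hfinj hab)]
      abel
    have h2 : ∑ r ∈ R, hh (σ r) • vec G R (σ r) = vec G R (f S) := by
      rw [← h1, ← Equiv.sum_comp σ (fun x => hh x • vec G R x)]
      apply Finset.sum_subset (subset_univ R)
      intro r _ hr
      have h3 : hh (σ r) = 0 := by
        have h4 : σ r ∉ D' := fun hd => hr (by have := hTR' (σ r) (Or.inl hd); simpa using this)
        have h5 : σ r ∉ S.image (fun i => f {i}) := by
          intro hd
          rw [mem_image] at hd
          obtain ⟨j, _, hj⟩ := hd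
          exact hr (by have := hTR' (σ r) (Or.inr ⟨j, hj⟩); simpa using this)
        simp only [hhh, hl0 _ h4, if_neg h5, add_zero]
      rw [h3, zero_smul]
    have h6 := hexp (σ.symm (f S))
    rw [Equiv.apply_symm_apply, ← h2] at h6
    have h7 : ∑ r ∈ R, (hh (σ r) - vec G' R (σ.symm (f S)) r) • vec G R (σ r) = 0 := by
      simp only [sub_smul, sum_sub_distrib]
      rw [h6, sub_self]
    have h8 := linearIndepOn_finset_iff.1 hind _ h7 (σ.symm (f {i})) (hTR' _ (Or.inr ⟨i, rfl⟩))
    rw [sub_eq_zero, Equiv.apply_symm_apply] at h8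
    rw [← h8]
    simp only [hhh, hl0 _ (hfD i), zero_add]
    congr 1
    rw [eq_iff_iff, mem_image]
    constructor
    · rintro ⟨j, hj, hji⟩
      rwa [← hfinj hji]
    · intro hi
      exact ⟨i, hi, rfl⟩
  -- rows and columns
  set ρ0 : Fin (2 ^ n) → V := fun i => σ.symm (f {i}) with hρ0
  have hρR : ∀ i, ρ0 i ∈ R := fun i => hTR' _ (Or.inr ⟨i, rfl⟩)
  have hρinj : Function.Injective ρ0 := fun i j hij => hfinj (σ.symm.injective hij)
  have hadj : ∀ S : Finset (Fin (2 ^ n)), (∃ a ∈ S, ∃ b ∈ S, a ≠ b) → ∀ i,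
      G'.Adj (ρ0 i) (σ.symm (f S)) ↔ i ∈ S := by
    rintro S ⟨a, ha, b, hb, hab⟩ i
    have hS : S.Nonempty := ⟨a, ha⟩
    have hvec : ∀ j, (σ.symm (f S) = ρ0 j ∨ G'.Adj (σ.symm (f S)) (ρ0 j)) ↔ j ∈ S := by
      intro j
      have h1 := hcoef S hS j
      rw [vec] at h1
      constructor
      · intro h2
        by_contra hj
        rw [if_pos ⟨hρR j, h2⟩, if_neg hj] at h1
        exact one_ne_zero h1
      · intro hj
        by_contra h2
        rw [if_neg (fun h3 => h2 h3.2), if_pos hj] at h1
        exact zero_ne_one h1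
    have hne : ∀ j, σ.symm (f S) ≠ ρ0 j := by
      intro j hj
      have h1 : ∀ k ∈ S, k = j := by
        intro k hk
        rcases (hvec k).2 hk with h2 | h2
        · exact hρinj (h2.symm.trans hj)
        · rw [hj] at h2
          exact absurd h2 (hR' _ (hρR j) _ (hρR k))
      exact hab ((h1 a ha).trans (h1 b hb).symm)
    rw [← hvec i, G'.adj_comm]
    constructor
    · exact Or.inr
    · rintro (h1 | h1)
      · exact absurd h1 (hne i)
      · exact h1
  have e : Finset (Fin n) ≃ Fin (2 ^ n) := Fintype.equivFinOfCardEq (by simp)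
  refine ⟨fun j => σ.symm (f (univ.filter fun i => j ∈ e.symm i)), fun P => ρ0 (e P), ?_, ?_, ?_⟩
  · exact hρinj.comp e.injective
  · intro P Q
    exact hR' _ (hρR _) _ (hρR _)
  · intro P j
    rw [hadj]
    · simp
    · obtain ⟨j', hj'⟩ : ∃ j' : Fin n, j' ≠ j := by
        haveI : Nontrivial (Fin n) := Fin.nontrivial_iff_two_le.2 hn
        exact exists_ne j
      refine ⟨e {j}, by simp, e univ, by simp, ?_⟩
      intro h1
      have h2 := e.injective h1
      have h3 : j' ∈ ({j} : Finset (Fin n)) := by rw [h2]; exact mem_univ j'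
      rw [mem_singleton] at h3
      exact hj' h3

end Pool.Agent.Helper35.PM
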