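import Pool.Agent.Helper30.PM.CubeOfPG
import Pool.Agent.Helper15.PM.Basis

set_option autoImplicit false

/-!
# Project PM, module PM-3 (final form)
-/

namespace Pool.Agent.Helper35.PM

/-- PM-3 -/
theorem cube_of_hasPG {V : Type} [Fintype V] (G : SimpleGraph V) (n : ℕ) (hn : 2 ≤ n)
    (h : HasPG G (2 ^ n)) :
    ∃ G' : SimpleGraph V, Relation.ReflTransGen PivotStep G G' ∧
      ∃ (c : Fin n → V) (ρ : Finset (Fin n) → V), Cube G' c ρ :=
  cube_of_hasPG_aux G n hn (basis_change G) h

end Pool.Agent.Helper35.PM
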