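import Pool.Agent.Helper79.PM.Expect

set_option autoImplicit false

/-!
# Project PM, module PM-7c: choice of the labels
-/

namespace Pool.Agent.Helper35.PM

open Finset
open scoped Classical

/-- PM-7c: choice of the labels `W`. -/
theorem exists_labels {V : Type} [Fintype V] (s : Sys V) (Λ D η : ℝ) (q : ℕ) (hΛ : 1 ≤ Λ)
    (hs : s.OK Λ D η q) (κ : ℕ) (X : Finset V) (hX : X ⊆ s.B)
    (L : Finset (V × V)) (hL : L ⊆ s.Bad κ X) :
    ∃ W ⊆ s.B \ X, (L.card : ℝ) ≤ 16 * Λ * D * ((L.filter fun p =>
      p.2 ∈ W ∧ s.N p.1 ∩ W = {p.2} ∧ ∀ z ∈ insert p.2 (s.N p.1 ∩ X),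
        Disjoint (s.Bk z) W).card : ℝ) := by
  have hD := hs.one_le
  have hΛD : 1 ≤ Λ * D := by nlinarith
  set p : ℝ := 1 / (8 * (Λ * D)) with hp
  have hp0 : 0 ≤ p := by positivity
  have hp1 : p ≤ 1 := by
    rw [hp, div_le_one (by positivity)]
    linarith
  set P : V × V → Finset V → Prop := fun pr W =>
    pr.2 ∈ W ∧ s.N pr.1 ∩ W = {pr.2} ∧ ∀ z ∈ insert pr.2 (s.N pr.1 ∩ X), Disjoint (s.Bk z) W
    with hP
  -- one pair
  have hone : ∀ pr ∈ L, 1 / (16 * (Λ * D)) ≤
      Ex p (s.B \ X) (fun W => if P pr W then (1 : ℝ) else 0) := by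
    intro pr hpr
    have hbad := hL hpr
    rw [Sys.Bad, mem_filter, mem_product, mem_sdiff] at hbad
    obtain ⟨⟨hact, hwB, hwX⟩, hwN, hfree, -⟩ := hbad
    rw [Sys.Act, mem_filter] at hact
    obtain ⟨haA, hcard2, -, -⟩ := hact
    set T : Finset V := (s.N pr.1 ∪ (insert pr.2 (s.N pr.1 ∩ X)).biUnion s.Bk) ∩ (s.B \ X) with hT
    have hwT : pr.2 ∈ T := by
      rw [hT, mem_inter, mem_union, mem_sdiff]
      exact ⟨Or.inl hwN, hwB, hwX⟩
    have hTcard : (T.card : ℝ) ≤ 4 * (Λ * D) := by
      have h1 : T.card ≤ (s.N pr.1).card + ((insert pr.2 (s.N pr.1 ∩ X)).biUnion s.Bk).card :=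
        (card_le_card inter_subset_left).trans (card_union_le _ _)
      have h2 : (((insert pr.2 (s.N pr.1 ∩ X)).biUnion s.Bk).card : ℝ) ≤ 3 * (Λ * D) := by
        have h3 : ((insert pr.2 (s.N pr.1 ∩ X)).biUnion s.Bk).card ≤
            ∑ z ∈ insert pr.2 (s.N pr.1 ∩ X), (s.Bk z).card := card_biUnion_le
        have h4 : ((∑ z ∈ insert pr.2 (s.N pr.1 ∩ X), (s.Bk z).card : ℕ) : ℝ) ≤
            ∑ z ∈ insert pr.2 (s.N pr.1 ∩ X), Λ * D := by
          push_cast
          apply sum_le_sum
          intro z hz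
          apply hs.back_card
          rw [mem_insert, mem_inter] at hz
          rcases hz with rfl | hz
          · exact hwB
          · exact hX hz.2
        rw [sum_const, nsmul_eq_mul] at h4
        have h5 : ((insert pr.2 (s.N pr.1 ∩ X)).card : ℝ) ≤ 3 := by
          have := card_insert_le pr.2 (s.N pr.1 ∩ X)
          rw [hcard2] at this
          exact_mod_cast this
        have h6 : (((insert pr.2 (s.N pr.1 ∩ X)).biUnion s.Bk).card : ℝ) ≤
            ((∑ z ∈ insert pr.2 (s.N pr.1 ∩ X), (s.Bk z).card : ℕ) : ℝ) := by exact_mod_cast h3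
        refine h6.trans (h4.trans ?_)
        exact mul_le_mul_of_nonneg_right h5 (by positivity)
      have h7 := hs.card_le pr.1 haA
      have h8 : (T.card : ℝ) ≤ ((s.N pr.1).card : ℝ) +
          (((insert pr.2 (s.N pr.1 ∩ X)).biUnion s.Bk).card : ℝ) := by exact_mod_cast h1
      linarith
    have himp : ∀ W ⊆ s.B \ X, (if W ∩ T = {pr.2} then (1 : ℝ) else 0) ≤
        if P pr W then (1 : ℝ) else 0 := by
      intro W hW
      by_cases h : W ∩ T = {pr.2}
      · have hPW : P pr W := by
          have hwW : pr.2 ∈ W := by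
            have : pr.2 ∈ W ∩ T := by rw [h]; exact mem_singleton_self _
            exact (mem_inter.1 this).1
          refine ⟨hwW, ?_, ?_⟩
          · apply Finset.Subset.antisymm
            · intro v hv
              rw [mem_inter] at hv
              rw [← h, mem_inter]
              exact ⟨hv.2, mem_inter.2 ⟨mem_union_left _ hv.1, hW hv.2⟩⟩
            · rw [singleton_subset_iff, mem_inter]
              exact ⟨hwN, hwW⟩
          · intro z hz
            rw [Finset.disjoint_left]
            intro v hvz hvW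
            have hvT : v ∈ W ∩ T := by
              rw [mem_inter]
              refine ⟨hvW, mem_inter.2 ⟨mem_union_right _ ?_, hW hvW⟩⟩
              rw [mem_biUnion]
              exact ⟨z, hz, hvz⟩
            rw [h, mem_singleton] at hvT
            have hzf : z ∈ s.N pr.1 ∩ insert pr.2 X := by
              rw [mem_insert, mem_inter] at hz
              rw [mem_inter, mem_insert]
              rcases hz with rfl | hz
              · exact ⟨hwN, Or.inl rfl⟩
              · exact ⟨hz.1, Or.inr hz.2⟩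
            have hzF := hfree hzf
            rw [Sys.Free, mem_filter] at hzF
            rw [hvT] at hvz
            exact (Finset.disjoint_left.1 hzF.2) hvz (mem_insert_self _ _)
        rw [if_pos h, if_pos hPW]
      · rw [if_neg h]
        split_ifs
        · exact zero_le_one
        · exact le_rfl
    have hEx := Ex_mono p hp0 hp1 (s.B \ X) _ _ himp
    rw [Ex_inter_eq p (s.B \ X) {pr.2} T (singleton_subset_iff.2 hwT) inter_subset_right,
      card_singleton, pow_one] at hEx
    refine le_trans ?_ hEx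
    have hb : 1 / 2 ≤ (1 - p) ^ (T \ {pr.2}).card := by
      have h1 : ((T \ {pr.2}).card : ℝ) ≤ 4 * (Λ * D) :=
        le_trans (by exact_mod_cast card_le_card sdiff_subset) hTcard
      have h2 := one_add_mul_le_pow (a := -p) (by linarith) (T \ {pr.2}).card
      rw [← sub_eq_add_neg] at h2
      refine le_trans ?_ h2
      have h3 : ((T \ {pr.2}).card : ℝ) * p ≤ 4 * (Λ * D) * p :=
        mul_le_mul_of_nonneg_right h1 hp0
      have h4 : 4 * (Λ * D) * p = 1 / 2 := by
        rw [hp]
        field_simp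
        norm_num
      linarith
    calc 1 / (16 * (Λ * D)) = p * (1 / 2) := by rw [hp]; field_simp; norm_num
      _ ≤ p * (1 - p) ^ (T \ {pr.2}).card := mul_le_mul_of_nonneg_left hb hp0
  -- the expectation
  obtain ⟨W, hWB, hW⟩ := exists_ge_Ex p hp0 hp1 (s.B \ X)
    (fun W => ∑ pr ∈ L, if P pr W then (1 : ℝ) else 0)
  refine ⟨W, hWB, ?_⟩
  rw [Ex_sum] at hW
  have h1 := sum_le_sum hone
  rw [sum_const, nsmul_eq_mul] at h1
  have h2 := h1.trans hW
  rw [Finset.sum_boole] at h2
  have h3 : (L.card : ℝ) * (1 / (16 * (Λ * D))) = L.card / (16 * (Λ * D)) := by ring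
  rw [h3, div_le_iff₀ (by positivity)] at h2
  have h4 : (L.filter fun pr => P pr W) = L.filter fun p =>
      p.2 ∈ W ∧ s.N p.1 ∩ W = {p.2} ∧ ∀ z ∈ insert p.2 (s.N p.1 ∩ X), Disjoint (s.Bk z) W := by
    ext v
    simp only [mem_filter, hP]
  rw [h4] at h2
  linarith

end Pool.Agent.Helper35.PM
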